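import Mathlib

set_option autoImplicit false

/-!
# Deterministic communication is not bounded by quantum communication for AND-functions

For `f(z) = 1` iff at most one coordinate of `z` is zero, the function `F(x, y) = f(x ∧ y)` has
deterministic complexity at least `log₂ n`, while public-coin randomized protocols need at most five
bits and quantum protocols with prior entanglement at most seven qubits.
-/

namespace Pool.Agent.Results.MP_799357_lc.NoFunctionBound

open scoped BigOperators

/-! ### Deterministic and public-coin protocols -/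

/-- A deterministic protocol: a leaf carries the output, at an inner node Alice (or Bob) sends one
bit which depends on her (his) input. -/
inductive Prot (X Y : Type) : Type
  | out : Bool → Prot X Y
  | alice : (X → Bool) → Prot X Y → Prot X Y → Prot X Y
  | bob : (Y → Bool) → Prot X Y → Prot X Y → Prot X Y

namespace Prot

variable {X Y : Type}

/-- the output -/
def run : Prot X Y → X → Y → Bool
  | out b, _, _ => b
  | alice q l r, x, y => if q x then l.run x y else r.run x y
  | bob q l r, x, y => if q y then l.run x y else r.run x y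

/-- the worst-case number of bits exchanged -/
def cost : Prot X Y → ℕ
  | out _ => 0
  | alice _ l r => 1 + max l.cost r.cost
  | bob _ l r => 1 + max l.cost r.cost

end Prot

/-- `D(F)`: the least worst-case number of bits exchanged by a deterministic protocol for `F` -/
noncomputable def D {X Y : Type} (F : X → Y → Bool) : ℕ :=
  sInf {c | ∃ P : Prot X Y, P.cost ≤ c ∧ ∀ x y, P.run x y = F x y}

/-- `R_{1/3}(F)`: the least worst-case number of bits exchanged by a public-coin protocol (a
probability distribution `p` on finitely many deterministic protocols `P r`) whose output is right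
with probability at least `2/3` on every input -/
noncomputable def R {X Y : Type} (F : X → Y → Bool) : ℕ :=
  sInf {c | ∃ (k : ℕ) (p : Fin k → ℝ) (P : Fin k → Prot X Y), (∀ r, 0 ≤ p r) ∧ ∑ r, p r = 1 ∧
    (∀ r, (P r).cost ≤ c) ∧ ∀ x y, 2 / 3 ≤ ∑ r, if (P r).run x y = F x y then p r else 0}

/-! ### Quantum protocols with prior entanglement -/

/-- A quantum protocol with `T` exchanged qubits. Alice has a memory with the orthonormal basis `A`,
Bob one with the basis `B`, and there is one qubit, with the basis `false`, `true`, that travels; the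
joint state is a vector in the space with the basis `A × Bool × B`. At first the memories are in an
arbitrary joint (entangled) state `ψ` and the qubit is in the state `false`. In the round `t < T` the
party that has the qubit (Alice if `t` is even, Bob if `t` is odd) applies a unitary transformation,
which depends on the input of this party only, to the own memory and the qubit, and sends the qubit
to the other party. After `T` rounds the party that has the qubit applies a last transformation and
measures the qubit; the result is the output. -/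
structure QProt (X Y : Type) (T : ℕ) where
  A : Type
  B : Type
  [finA : Fintype A]
  [decA : DecidableEq A]
  [finB : Fintype B]
  [decB : DecidableEq B]
  ψ : A × B → ℂ
  norm_ψ : ∑ z, ‖ψ z‖ ^ 2 = 1
  U : ℕ → X → Matrix.unitaryGroup (A × Bool) ℂ
  V : ℕ → Y → Matrix.unitaryGroup (Bool × B) ℂ

namespace QProt

attribute [instance] finA decA finB decB

variable {X Y : Type} {T : ℕ}

/-- the joint state after the first `t` transformations, on the inputs `x`, `y` -/
noncomputable def state (P : QProt X Y T) (x : X) (y : Y) : ℕ → P.A × Bool × P.B → ℂ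
  | 0 => fun z => if z.2.1 = false then P.ψ (z.1, z.2.2) else 0
  | t + 1 => fun z =>
      if t % 2 = 0 then
        ∑ w : P.A × Bool, (P.U t x).1 (z.1, z.2.1) w * P.state x y t (w.1, w.2, z.2.2)
      else
        ∑ w : Bool × P.B, (P.V t y).1 (z.2.1, z.2.2) w * P.state x y t (z.1, w.1, w.2)

/-- the probability of the output `o` -/
noncomputable def prob (P : QProt X Y T) (x : X) (y : Y) (o : Bool) : ℝ :=
  ∑ z : P.A × Bool × P.B, if z.2.1 = o then ‖P.state x y (T + 1) z‖ ^ 2 else 0

end QProt

/-- `Q*_{1/3}(F)`: the least number of qubits exchanged by a quantum protocol with prior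
entanglement whose output is right with probability at least `2/3` on every input -/
noncomputable def Q {X Y : Type} (F : X → Y → Bool) : ℕ :=
  sInf {T | ∃ P : QProt X Y T, ∀ x y, 2 / 3 ≤ P.prob x y (F x y)}

/-! ### AND-functions -/

/-- `F(x, y) = f(x ∧ y)` -/
def andF {n : ℕ} (f : (Fin n → Bool) → Bool) (x y : Fin n → Bool) : Bool :=
  f fun i => x i && y i

/-- at most one coordinate is zero -/
def f₁ (n : ℕ) (z : Fin n → Bool) : Bool :=
  decide (∀ i j, z i = false → z j = false → i = j)

/-! ### Deterministic protocols -/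

theorem exists_prot {X Y : Type} [DecidableEq X] (F : X → Y → Bool) (S : Finset X) :
    ∃ P : Prot X Y, ∀ x ∈ S, ∀ y, P.run x y = F x y := by
  induction S using Finset.induction_on with
  | empty => exact ⟨.out false, by simp⟩
  | insert a S _ ih =>
    obtain ⟨P, hP⟩ := ih
    refine ⟨.alice (fun x => decide (x = a)) (.bob (fun y => F a y) (.out true) (.out false)) P,
      fun x hx y => ?_⟩
    by_cases h : x = a
    · subst h
      simp only [Prot.run, decide_true, if_true]
      by_cases h2 : F x y = true
      · simp [h2]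
      · simp [h2]
    · simp only [Prot.run, h, decide_false]
      simp only [Bool.false_eq_true, if_false]
      exact hP x (by simpa [h] using hx) y

theorem card_le {n : ℕ} {Y : Type} (u : Fin n → Y) {X : Type} (v : Fin n → X) (P : Prot X Y) :
    ∀ S : Finset (Fin n), (∀ i ∈ S, ∀ j ∈ S, P.run (v i) (u j) = decide (i = j)) →
      S.card ≤ 2 ^ P.cost := by
  induction P with
  | out b =>
    intro S h
    simp only [Prot.cost, pow_zero]
    rw [Finset.card_le_one]
    intro i hi j hj
    by_contra hij
    have h1 := h i hi i hi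
    have h2 := h i hi j hj
    simp only [Prot.run] at h1 h2
    rw [h1] at h2
    simp [hij] at h2
  | alice q l r ihl ihr =>
    intro S h
    have h1 := ihl (S.filter fun i => q (v i) = true) (fun i hi j hj => by
      simp only [Finset.mem_filter] at hi hj
      have := h i hi.1 j hj.1
      simpa [Prot.run, hi.2] using this)
    have h2 := ihr (S.filter fun i => ¬ q (v i) = true) (fun i hi j hj => by
      simp only [Finset.mem_filter] at hi hj
      have := h i hi.1 j hj.1
      simpa [Prot.run, hi.2] using this)
    have h3 := Finset.card_filter_add_card_filter_not (s := S) (fun i => q (v i) = true)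
    simp only [Prot.cost]
    have h4 : 2 ^ l.cost ≤ 2 ^ max l.cost r.cost := Nat.pow_le_pow_right (by norm_num) (le_max_left _ _)
    have h5 : 2 ^ r.cost ≤ 2 ^ max l.cost r.cost := Nat.pow_le_pow_right (by norm_num) (le_max_right _ _)
    rw [pow_add]
    omega
  | bob q l r ihl ihr =>
    intro S h
    have h1 := ihl (S.filter fun i => q (u i) = true) (fun i hi j hj => by
      simp only [Finset.mem_filter] at hi hj
      have := h i hi.1 j hj.1
      simpa [Prot.run, hj.2] using this)
    have h2 := ihr (S.filter fun i => ¬ q (u i) = true) (fun i hi j hj => by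
      simp only [Finset.mem_filter] at hi hj
      have := h i hi.1 j hj.1
      simpa [Prot.run, hj.2] using this)
    have h3 := Finset.card_filter_add_card_filter_not (s := S) (fun i => q (u i) = true)
    simp only [Prot.cost]
    have h4 : 2 ^ l.cost ≤ 2 ^ max l.cost r.cost := Nat.pow_le_pow_right (by norm_num) (le_max_left _ _)
    have h5 : 2 ^ r.cost ≤ 2 ^ max l.cost r.cost := Nat.pow_le_pow_right (by norm_num) (le_max_right _ _)
    rw [pow_add]
    omega

/-- all coordinates but `i` are one -/
def co {n : ℕ} (i : Fin n) : Fin n → Bool := fun j => decide (j ≠ i)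

theorem f₁_co {n : ℕ} (i j : Fin n) : andF (f₁ n) (co i) (co j) = decide (i = j) := by
  unfold andF f₁ co
  rw [decide_eq_decide]
  constructor
  · intro h
    exact h i j (by simp) (by simp)
  · rintro rfl a b ha hb
    simp only [Bool.and_self, decide_eq_false_iff_not, not_not] at ha hb
    rw [ha, hb]

theorem le_D (n : ℕ) : n ≤ 2 ^ D (andF (f₁ n)) := by
  have hne : {c | ∃ P : Prot (Fin n → Bool) (Fin n → Bool), P.cost ≤ c ∧
      ∀ x y, P.run x y = andF (f₁ n) x y}.Nonempty := by
    obtain ⟨P, hP⟩ := exists_prot (andF (f₁ n)) Finset.univ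
    exact ⟨P.cost, P, le_rfl, fun x y => hP x (Finset.mem_univ _) y⟩
  obtain ⟨P, hc, hP⟩ := Nat.sInf_mem hne
  have h1 := card_le (co (n := n)) (co (n := n)) P Finset.univ
    (fun i _ j _ => by rw [hP, f₁_co])
  rw [Finset.card_univ, Fintype.card_fin] at h1
  exact h1.trans (Nat.pow_le_pow_right (by norm_num) hc)

/-! ### One-way protocols with public coins -/

/-- `F` has a one-way protocol with seeds `Ω`: Alice sends four bits `α r 0 x, ..., α r 3 x`, and Bob
computes the output, which is right for at least two thirds of the seeds. -/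
structure OneWay {X Y : Type} (F : X → Y → Bool) (Ω : Type) [Fintype Ω] where
  α : Ω → Fin 4 → X → Bool
  g : Ω → (Fin 4 → Bool) → Y → Bool
  good : ∀ x y, 2 * Fintype.card Ω ≤
    3 * (Finset.univ.filter fun r => g r (fun k => α r k x) y = F x y).card

/-- Alice sends the bits `k - 1, ..., 0` -/
def tr {X Y : Type} (α : ℕ → X → Bool) (g : (ℕ → Bool) → Y → Bool) :
    ℕ → (ℕ → Bool) → Prot X Y
  | 0, m => .bob (g m) (.out true) (.out false)
  | k + 1, m => .alice (α k) (tr α g k (Function.update m k true))
      (tr α g k (Function.update m k false))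

theorem cost_tr {X Y : Type} (α : ℕ → X → Bool) (g : (ℕ → Bool) → Y → Bool) (k : ℕ) :
    ∀ m, (tr α g k m).cost = k + 1 := by
  induction k with
  | zero => intro m; rfl
  | succ k ih =>
    intro m
    simp only [tr, Prot.cost, ih, max_self]
    ring

theorem run_tr {X Y : Type} (α : ℕ → X → Bool) (g : (ℕ → Bool) → Y → Bool) (x : X) (y : Y)
    (k : ℕ) : ∀ m, (tr α g k m).run x y = g (fun i => if i < k then α i x else m i) y := by
  induction k with
  | zero =>
    intro m
    simp only [tr, Prot.run, Nat.not_lt_zero, if_false]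
    by_cases h : g m y = true
    · simp [h]
    · simp [h]
  | succ k ih =>
    intro m
    have key : (tr α g (k + 1) m).run x y =
        (tr α g k (Function.update m k (α k x))).run x y := by
      simp only [tr, Prot.run]
      cases h : α k x <;> simp
    rw [key, ih]
    congr 1
    funext i
    by_cases h1 : i < k
    · simp [h1, Nat.lt_succ_of_lt h1]
    · by_cases h2 : i = k
      · subst h2
        simp
      · have h3 : ¬ i < k + 1 := by omega
        simp [h1, h3, h2]

theorem R_le {X Y : Type} {F : X → Y → Bool} {Ω : Type} [Fintype Ω] [Nonempty Ω]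
    (W : OneWay F Ω) : R F ≤ 5 := by
  classical
  refine Nat.sInf_le ?_
  let e := Fintype.equivFin Ω
  have hpos : (0 : ℝ) < Fintype.card Ω := by exact_mod_cast Fintype.card_pos
  let P : Ω → Prot X Y := fun r => tr (fun k x => if h : k < 4 then W.α r ⟨k, h⟩ x else false)
    (fun m y => W.g r (fun k => m k) y) 4 (fun _ => false)
  have hP : ∀ r x y, (P r).run x y = W.g r (fun k => W.α r k x) y := by
    intro r x y
    simp only [P]
    rw [run_tr]
    congr 1
    funext k
    simp
  refine ⟨Fintype.card Ω, fun _ => (Fintype.card Ω : ℝ)⁻¹, fun i => P (e.symm i),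
    fun _ => by positivity, ?_, fun r => ?_, fun x y => ?_⟩
  · simp only [Finset.sum_const, Finset.card_univ, Fintype.card_fin, nsmul_eq_mul]
    exact mul_inv_cancel₀ hpos.ne'
  · simp only [P, cost_tr]
    norm_num
  · have h1 : (∑ i : Fin (Fintype.card Ω), if (P (e.symm i)).run x y = F x y then
        (Fintype.card Ω : ℝ)⁻¹ else 0) =
        ∑ r : Ω, if (P r).run x y = F x y then (Fintype.card Ω : ℝ)⁻¹ else 0 :=
      e.symm.sum_comp (fun r => if (P r).run x y = F x y then (Fintype.card Ω : ℝ)⁻¹ else 0)
    rw [h1]
    simp only [hP]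
    rw [← Finset.sum_filter, Finset.sum_const, nsmul_eq_mul]
    have h2 := W.good x y
    have h3 : (2 : ℝ) * Fintype.card Ω ≤
        3 * (Finset.univ.filter fun r => W.g r (fun k => W.α r k x) y = F x y).card := by
      exact_mod_cast h2
    rw [← div_eq_mul_inv, le_div_iff₀ hpos]
    linarith

/-! ### Quantum protocols from permutations -/

/-- the unitary matrix of a permutation -/
noncomputable def permU {ι : Type} [Fintype ι] [DecidableEq ι] (σ : Equiv.Perm ι) :
    Matrix.unitaryGroup ι ℂ :=
  ⟨Matrix.of fun i j => if i = σ j then (1 : ℂ) else 0, by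
    rw [Matrix.mem_unitaryGroup_iff']
    ext i j
    simp only [Matrix.mul_apply, Matrix.star_apply, Matrix.one_apply, Matrix.of_apply]
    rw [Finset.sum_eq_single (σ i)]
    · by_cases h : i = j
      · simp [h]
      · simp [h]
    · intro b _ hb
      simp [hb]
    · intro h
      exact absurd (Finset.mem_univ _) h⟩

section Quantum

variable {X Y : Type} {T : ℕ} {A B : Type} [Fintype A] [DecidableEq A] [Fintype B] [DecidableEq B]

/-- the protocol given by permutations -/
noncomputable def permProt (T : ℕ) (ψ : A × B → ℂ) (hψ : ∑ z, ‖ψ z‖ ^ 2 = 1)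
    (σ : ℕ → X → Equiv.Perm (A × Bool)) (τ : ℕ → Y → Equiv.Perm (Bool × B)) : QProt X Y T where
  A := A
  B := B
  ψ := ψ
  norm_ψ := hψ
  U := fun t x => permU (σ t x)
  V := fun t y => permU (τ t y)

/-- the permutation of the joint basis in round `t` -/
def stp (σ : ℕ → X → Equiv.Perm (A × Bool)) (τ : ℕ → Y → Equiv.Perm (Bool × B)) (x : X) (y : Y)
    (t : ℕ) : Equiv.Perm (A × Bool × B) :=
  if t % 2 = 0 then
    (Equiv.prodAssoc A Bool B).symm.trans (((σ t x).prodCongr (Equiv.refl B)).trans
      (Equiv.prodAssoc A Bool B))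
  else (Equiv.refl A).prodCongr (τ t y)

/-- the permutation of the joint basis after `t` rounds -/
def trj (σ : ℕ → X → Equiv.Perm (A × Bool)) (τ : ℕ → Y → Equiv.Perm (Bool × B)) (x : X) (y : Y) :
    ℕ → Equiv.Perm (A × Bool × B)
  | 0 => Equiv.refl _
  | t + 1 => (trj σ τ x y t).trans (stp σ τ x y t)

theorem state_stp (ψ : A × B → ℂ) (hψ : ∑ z, ‖ψ z‖ ^ 2 = 1)
    (σ : ℕ → X → Equiv.Perm (A × Bool)) (τ : ℕ → Y → Equiv.Perm (Bool × B)) (x : X) (y : Y)
    (t : ℕ) (w : A × Bool × B) :
    (permProt T ψ hψ σ τ).state x y (t + 1) (stp σ τ x y t w) =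
      (permProt T ψ hψ σ τ).state x y t w := by
  obtain ⟨a, c, b⟩ := w
  by_cases ht : t % 2 = 0
  · simp only [QProt.state, ht, if_true]
    have h1 : stp σ τ x y t (a, c, b) = ((σ t x (a, c)).1, (σ t x (a, c)).2, b) := by
      simp [stp, ht]
    rw [h1]
    change ∑ w : A × Bool, (if ((σ t x (a, c)).1, (σ t x (a, c)).2) = σ t x w then (1 : ℂ) else 0) *
      (permProt T ψ hψ σ τ).state x y t (w.1, w.2, b) = _
    rw [Finset.sum_eq_single (a, c)]
    · rw [if_pos rfl, one_mul]
      rfl
    · intro w _ hw
      rw [if_neg, zero_mul]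
      intro h
      exact hw ((σ t x).injective h).symm
    · intro h
      exact absurd (Finset.mem_univ _) h
  · simp only [QProt.state, ht, if_false]
    have h1 : stp σ τ x y t (a, c, b) = (a, (τ t y (c, b)).1, (τ t y (c, b)).2) := by
      simp [stp, ht]
    rw [h1]
    change ∑ w : Bool × B, (if ((τ t y (c, b)).1, (τ t y (c, b)).2) = τ t y w then (1 : ℂ) else 0) *
      (permProt T ψ hψ σ τ).state x y t (a, w.1, w.2) = _
    rw [Finset.sum_eq_single (c, b)]
    · rw [if_pos rfl, one_mul]
      rfl
    · intro w _ hw
      rw [if_neg, zero_mul]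
      intro h
      exact hw ((τ t y).injective h).symm
    · intro h
      exact absurd (Finset.mem_univ _) h

theorem state_trj (ψ : A × B → ℂ) (hψ : ∑ z, ‖ψ z‖ ^ 2 = 1)
    (σ : ℕ → X → Equiv.Perm (A × Bool)) (τ : ℕ → Y → Equiv.Perm (Bool × B)) (x : X) (y : Y)
    (t : ℕ) : ∀ w : A × Bool × B,
    (permProt T ψ hψ σ τ).state x y t (trj σ τ x y t w) =
      if w.2.1 = false then ψ (w.1, w.2.2) else 0 := by
  induction t with
  | zero => intro w; rfl
  | succ t ih =>
    intro w
    rw [← ih w]
    exact state_stp ψ hψ σ τ x y t _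

theorem prob_perm (ψ : A × B → ℂ) (hψ : ∑ z, ‖ψ z‖ ^ 2 = 1)
    (σ : ℕ → X → Equiv.Perm (A × Bool)) (τ : ℕ → Y → Equiv.Perm (Bool × B)) (x : X) (y : Y)
    (o : Bool) : (permProt T ψ hψ σ τ).prob x y o =
      ∑ w : A × B, if (trj σ τ x y (T + 1) (w.1, false, w.2)).2.1 = o then ‖ψ w‖ ^ 2 else 0 := by
  have h1 : (permProt T ψ hψ σ τ).prob x y o = ∑ w : A × Bool × B,
      if (trj σ τ x y (T + 1) w).2.1 = o then
        ‖(permProt T ψ hψ σ τ).state x y (T + 1) (trj σ τ x y (T + 1) w)‖ ^ 2 else 0 := by
    exact (Equiv.sum_comp (trj σ τ x y (T + 1)) (fun z : A × Bool × B => if z.2.1 = o then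
      ‖(permProt T ψ hψ σ τ).state x y (T + 1) z‖ ^ 2 else 0)).symm
  rw [h1]
  simp only [state_trj]
  rw [Fintype.sum_prod_type, Fintype.sum_prod_type]
  refine Finset.sum_congr rfl fun a _ => ?_
  rw [Fintype.sum_prod_type]
  rw [Fintype.sum_bool]
  simp

end Quantum

/-! ### A quantum protocol from a one-way protocol -/

/-- add a bit to the travelling bit -/
def addBit {Ω : Type} (h : Ω → Bool) : Equiv.Perm (Ω × Bool) :=
  Function.Involutive.toPerm (fun w => (w.1, xor w.2 (h w.1))) (fun w => by
    obtain ⟨r, c⟩ := w
    simp)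

/-- exchange the travelling bit and the bit `k` of the memory -/
def swapBit {Ω : Type} (k : Fin 4) : Equiv.Perm (Bool × Ω × (Fin 4 → Bool)) :=
  Function.Involutive.toPerm (fun w => (w.2.2 k, w.2.1, Function.update w.2.2 k w.1)) (fun w => by
    obtain ⟨c, r, m⟩ := w
    simp)

/-- add the value of a function of the memory to the travelling bit -/
def outBit {Ω : Type} (h : Ω → (Fin 4 → Bool) → Bool) : Equiv.Perm (Bool × Ω × (Fin 4 → Bool)) :=
  Function.Involutive.toPerm (fun w => (xor w.1 (h w.2.1 w.2.2), w.2.1, w.2.2)) (fun w => by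
    obtain ⟨c, r, m⟩ := w
    simp)

theorem addBit_apply {Ω : Type} (h : Ω → Bool) (r : Ω) (c : Bool) :
    addBit h (r, c) = (r, xor c (h r)) := rfl

theorem swapBit_apply {Ω : Type} (k : Fin 4) (c : Bool) (r : Ω) (m : Fin 4 → Bool) :
    swapBit k (c, r, m) = (m k, r, Function.update m k c) := rfl

theorem outBit_apply {Ω : Type} (h : Ω → (Fin 4 → Bool) → Bool) (c : Bool) (r : Ω)
    (m : Fin 4 → Bool) : outBit h (c, r, m) = (xor c (h r m), r, m) := rfl

theorem sum_graph {Ω M : Type} [Fintype Ω] [DecidableEq Ω] [Fintype M] [DecidableEq M] (m₀ : M)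
    (G : Ω × (Ω × M) → ℝ) :
    ∑ w : Ω × (Ω × M), (if w.2 = (w.1, m₀) then G w else 0) = ∑ r : Ω, G (r, (r, m₀)) := by
  rw [Fintype.sum_prod_type]
  refine Finset.sum_congr rfl fun r _ => ?_
  rw [Finset.sum_ite_eq' Finset.univ (r, m₀) (fun w2 => G (r, w2)), if_pos (Finset.mem_univ _)]

section FromOneWay

variable {X Y : Type} {F : X → Y → Bool} {Ω : Type} [Fintype Ω] [DecidableEq Ω]

/-- Alice's permutations -/
def sg (W : OneWay F Ω) (t : ℕ) (x : X) : Equiv.Perm (Ω × Bool) :=
  addBit fun r => W.α r (Fin.ofNat 4 (t / 2)) x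

/-- Bob's permutations -/
def ta (W : OneWay F Ω) (t : ℕ) (y : Y) : Equiv.Perm (Bool × Ω × (Fin 4 → Bool)) :=
  if t = 7 then (swapBit 3).trans (outBit fun r m => W.g r m y) else swapBit (Fin.ofNat 4 (t / 2))

/-- the empty memory -/
def m₀ : Fin 4 → Bool := fun _ => false

omit [DecidableEq Ω] in
theorem trj_eight (W : OneWay F Ω) (x : X) (y : Y) (r : Ω) :
    (trj (sg W) (ta W) x y 8 (r, false, (r, m₀))).2.1 = W.g r (fun k => W.α r k x) y := by
  have e1 : trj (sg W) (ta W) x y 1 (r, false, (r, m₀)) = (r, W.α r 0 x, (r, m₀)) := by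
    simp [trj, stp, sg, addBit_apply]
  have e2 : trj (sg W) (ta W) x y 2 (r, false, (r, m₀)) =
      (r, false, (r, Function.update m₀ 0 (W.α r 0 x))) := by
    rw [trj, Equiv.trans_apply, e1]
    simp [stp, ta, swapBit_apply, m₀]
  have e3 : trj (sg W) (ta W) x y 3 (r, false, (r, m₀)) =
      (r, W.α r 1 x, (r, Function.update m₀ 0 (W.α r 0 x))) := by
    rw [trj, Equiv.trans_apply, e2]
    simp [stp, sg, addBit_apply]
    rfl
  have e4 : trj (sg W) (ta W) x y 4 (r, false, (r, m₀)) =
      (r, false, (r, Function.update (Function.update m₀ 0 (W.α r 0 x)) 1 (W.α r 1 x))) := by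
    rw [trj, Equiv.trans_apply, e3]
    simp [stp, ta, swapBit_apply, m₀]
    rfl
  have e5 : trj (sg W) (ta W) x y 5 (r, false, (r, m₀)) =
      (r, W.α r 2 x, (r, Function.update (Function.update m₀ 0 (W.α r 0 x)) 1 (W.α r 1 x))) := by
    rw [trj, Equiv.trans_apply, e4]
    simp [stp, sg, addBit_apply]
  have e6 : trj (sg W) (ta W) x y 6 (r, false, (r, m₀)) =
      (r, false, (r, Function.update (Function.update (Function.update m₀ 0 (W.α r 0 x))
        1 (W.α r 1 x)) 2 (W.α r 2 x))) := by
    rw [trj, Equiv.trans_apply, e5]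
    simp [stp, ta, swapBit_apply, m₀]
  have e7 : trj (sg W) (ta W) x y 7 (r, false, (r, m₀)) =
      (r, W.α r 3 x, (r, Function.update (Function.update (Function.update m₀ 0 (W.α r 0 x))
        1 (W.α r 1 x)) 2 (W.α r 2 x))) := by
    rw [trj, Equiv.trans_apply, e6]
    simp [stp, sg, addBit_apply]
  have hm : Function.update (Function.update (Function.update (Function.update m₀
      0 (W.α r 0 x)) 1 (W.α r 1 x)) 2 (W.α r 2 x)) 3 (W.α r 3 x) = fun k => W.α r k x := by
    funext k
    fin_cases k <;> simp [Function.update]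
  rw [trj, Equiv.trans_apply, e7]
  simp [stp, ta, swapBit_apply, outBit_apply, m₀] at hm ⊢
  rw [hm]

/-- the initial entangled state -/
noncomputable def ψ₀ (Ω : Type) [Fintype Ω] [DecidableEq Ω] (w : Ω × (Ω × (Fin 4 → Bool))) : ℂ :=
  if w.2 = (w.1, m₀) then (((Real.sqrt (Fintype.card Ω))⁻¹ : ℝ) : ℂ) else 0

theorem norm_ψ₀ (w : Ω × (Ω × (Fin 4 → Bool))) :
    ‖ψ₀ Ω w‖ ^ 2 = if w.2 = (w.1, m₀) then (Fintype.card Ω : ℝ)⁻¹ else 0 := by
  unfold ψ₀
  split_ifs with h
  · rw [Complex.norm_real, Real.norm_eq_abs, sq_abs, inv_pow, Real.sq_sqrt (Nat.cast_nonneg _)]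
  · simp

theorem Q_le [Nonempty Ω] (W : OneWay F Ω) : Q F ≤ 7 := by
  have hpos : (0 : ℝ) < Fintype.card Ω := by exact_mod_cast Fintype.card_pos
  have hψ : ∑ z, ‖ψ₀ Ω z‖ ^ 2 = 1 := by
    simp only [norm_ψ₀]
    rw [sum_graph m₀ (fun _ => (Fintype.card Ω : ℝ)⁻¹)]
    simp only [Finset.sum_const, Finset.card_univ, nsmul_eq_mul]
    exact mul_inv_cancel₀ hpos.ne'
  refine Nat.sInf_le ⟨permProt 7 (ψ₀ Ω) hψ (sg W) (ta W), fun x y => ?_⟩
  rw [prob_perm]
  have h1 : (∑ w : Ω × (Ω × (Fin 4 → Bool)),
      if (trj (sg W) (ta W) x y (7 + 1) (w.1, false, w.2)).2.1 = F x y then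
        ‖ψ₀ Ω w‖ ^ 2 else 0) =
      ∑ w : Ω × (Ω × (Fin 4 → Bool)), if w.2 = (w.1, m₀) then
        (if (trj (sg W) (ta W) x y 8 (w.1, false, w.2)).2.1 = F x y then
          (Fintype.card Ω : ℝ)⁻¹ else 0) else 0 := by
    refine Finset.sum_congr rfl fun w _ => ?_
    rw [norm_ψ₀]
    split_ifs <;> rfl
  rw [h1, sum_graph m₀ (fun w : Ω × (Ω × (Fin 4 → Bool)) =>
    if (trj (sg W) (ta W) x y 8 (w.1, false, w.2)).2.1 = F x y then
          (Fintype.card Ω : ℝ)⁻¹ else 0)]
  simp only [trj_eight]
  rw [← Finset.sum_filter, Finset.sum_const, nsmul_eq_mul]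
  have h2 := W.good x y
  have h3 : (2 : ℝ) * Fintype.card Ω ≤
      3 * (Finset.univ.filter fun r => W.g r (fun k => W.α r k x) y = F x y).card := by
    exact_mod_cast h2
  rw [← div_eq_mul_inv, le_div_iff₀ hpos]
  linarith

end FromOneWay

/-! ### A one-way protocol for `F(x, y) = f₁(x ∧ y)` -/

/-- there is a zero -/
def z₀ {n : ℕ} (x : Fin n → Bool) : Bool := decide (∃ i, x i = false)

/-- the hash bit -/
def hb {n : ℕ} (s x : Fin n → Bool) : Bool := decide (∃ i, x i = false ∧ s i = true)

theorem two_mul_card {n : ℕ} {i j : Fin n} (hij : i ≠ j) :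
    2 * (Finset.univ.filter fun s : Fin n → Bool => s i = s j).card =
      Fintype.card (Fin n → Bool) := by
  have h1 : (Finset.univ.filter fun s : Fin n → Bool => ¬ s i = s j).card =
      (Finset.univ.filter fun s : Fin n → Bool => s i = s j).card := by
    refine Finset.card_bij' (fun s _ => Function.update s i (!(s i)))
      (fun s _ => Function.update s i (!(s i))) ?_ ?_ ?_ ?_
    · intro s hs
      simp only [Finset.mem_filter, Finset.mem_univ, true_and] at hs ⊢
      rw [Function.update_self, Function.update_of_ne hij.symm]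
      revert hs
      cases s i <;> cases s j <;> simp
    · intro s hs
      simp only [Finset.mem_filter, Finset.mem_univ, true_and] at hs ⊢
      rw [Function.update_self, Function.update_of_ne hij.symm]
      revert hs
      cases s i <;> cases s j <;> simp
    · intro s _
      simp
    · intro s _
      simp
  have h2 := Finset.card_filter_add_card_filter_not (s := (Finset.univ : Finset (Fin n → Bool)))
    (fun s => s i = s j)
  rw [Finset.card_univ] at h2
  omega

/-- the zeros of the two inputs are compared by two random hash bits -/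
def W₁ (n : ℕ) : OneWay (andF (f₁ n)) ((Fin n → Bool) × (Fin n → Bool)) where
  α r k x := ![z₀ x, f₁ n x, hb r.1 x, hb r.2 x] k
  g r m y := m 1 && f₁ n y && (!(m 0) || !(z₀ y) || (!(xor (m 2) (hb r.1 y)) &&
    !(xor (m 3) (hb r.2 y))))
  good x y := by
    change 2 * Fintype.card ((Fin n → Bool) × (Fin n → Bool)) ≤
      3 * (Finset.univ.filter fun r : (Fin n → Bool) × (Fin n → Bool) =>
        (f₁ n x && f₁ n y && (!(z₀ x) || !(z₀ y) || (!(xor (hb r.1 x) (hb r.1 y)) &&
          !(xor (hb r.2 x) (hb r.2 y))))) = andF (f₁ n) x y).card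
    by_cases hF : andF (f₁ n) x y = true
    · rw [hF]
      have h0 : ∀ i j, (x i && y i) = false → (x j && y j) = false → i = j := by
        simpa [andF, f₁] using hF
      have hx : f₁ n x = true := by
        simp only [f₁, decide_eq_true_eq]
        intro i j hi hj
        exact h0 i j (by simp [hi]) (by simp [hj])
      have hy : f₁ n y = true := by
        simp only [f₁, decide_eq_true_eq]
        intro i j hi hj
        exact h0 i j (by simp [hi]) (by simp [hj])
      have hall : (Finset.univ.filter fun r : (Fin n → Bool) × (Fin n → Bool) =>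
          (f₁ n x && f₁ n y && (!(z₀ x) || !(z₀ y) || (!(xor (hb r.1 x) (hb r.1 y)) &&
            !(xor (hb r.2 x) (hb r.2 y))))) = true) = Finset.univ := by
        rw [Finset.filter_eq_self]
        intro r _
        rw [hx, hy]
        by_cases h1 : z₀ x = true
        · by_cases h2 : z₀ y = true
          · have key : ∀ s : Fin n → Bool, hb s x = hb s y := by
              intro s
              simp only [z₀, decide_eq_true_eq] at h1 h2
              obtain ⟨i, hi⟩ := h1
              obtain ⟨j, hj⟩ := h2
              have hij : i = j := h0 i j (by simp [hi]) (by simp [hj])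
              subst hij
              unfold hb
              rw [decide_eq_decide]
              constructor
              · rintro ⟨a, ha, hs⟩
                have : a = i := h0 a i (by simp [ha]) (by simp [hi])
                subst this
                exact ⟨a, hj, hs⟩
              · rintro ⟨a, ha, hs⟩
                have : a = i := h0 a i (by simp [ha]) (by simp [hi])
                subst this
                exact ⟨a, hi, hs⟩
            simp [key]
          · simp [h2]
        · simp [h1]
      rw [hall, Finset.card_univ]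
      omega
    · rw [Bool.not_eq_true] at hF
      rw [hF]
      by_cases hx : f₁ n x = true
      · by_cases hy : f₁ n y = true
        · have h0 : ∃ i j, x i = false ∧ y j = false ∧ i ≠ j := by
            by_contra hcon
            push Not at hcon
            have : andF (f₁ n) x y = true := by
              simp only [andF, f₁, decide_eq_true_eq] at hx hy ⊢
              intro a b ha hb
              rw [Bool.and_eq_false_iff] at ha hb
              rcases ha with ha | ha <;> rcases hb with hb | hb
              · exact hx a b ha hb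
              · exact hcon a b ha hb
              · exact (hcon b a hb ha).symm
              · exact hy a b ha hb
            rw [this] at hF
            exact absurd hF (by simp)
          obtain ⟨i, j, hi, hj, hij⟩ := h0
          have hbx : ∀ s : Fin n → Bool, hb s x = s i := by
            intro s
            simp only [f₁, decide_eq_true_eq] at hx
            unfold hb
            by_cases hs : s i = true
            · rw [hs, decide_eq_true_eq]
              exact ⟨i, hi, hs⟩
            · rw [Bool.not_eq_true] at hs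
              rw [hs, decide_eq_false_iff_not]
              rintro ⟨a, ha, hsa⟩
              have := hx a i ha hi
              subst this
              rw [hs] at hsa
              exact absurd hsa (by simp)
          have hby : ∀ s : Fin n → Bool, hb s y = s j := by
            intro s
            simp only [f₁, decide_eq_true_eq] at hy
            unfold hb
            by_cases hs : s j = true
            · rw [hs, decide_eq_true_eq]
              exact ⟨j, hj, hs⟩
            · rw [Bool.not_eq_true] at hs
              rw [hs, decide_eq_false_iff_not]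
              rintro ⟨a, ha, hsa⟩
              have := hy a j ha hj
              subst this
              rw [hs] at hsa
              exact absurd hsa (by simp)
          have hzx : z₀ x = true := by
            simp only [z₀, decide_eq_true_eq]
            exact ⟨i, hi⟩
          have hzy : z₀ y = true := by
            simp only [z₀, decide_eq_true_eq]
            exact ⟨j, hj⟩
          simp only [hx, hy, hzx, hzy, hbx, hby]
          set N := (Finset.univ.filter fun s : Fin n → Bool => s i = s j) with hN
          have hc := two_mul_card hij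
          rw [← hN] at hc
          have hsub : (Finset.univ.filter fun r : (Fin n → Bool) × (Fin n → Bool) =>
              ¬ (true && true && (!true || !true || (!(xor (r.1 i) (r.1 j)) &&
                !(xor (r.2 i) (r.2 j))))) = false) ⊆ N ×ˢ N := by
            intro r hr
            rw [Finset.mem_filter] at hr
            rw [Finset.mem_product, hN, Finset.mem_filter, Finset.mem_filter]
            obtain ⟨_, hr⟩ := hr
            revert hr
            cases r.1 i <;> cases r.1 j <;> cases r.2 i <;> cases r.2 j <;> simp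
          have h3 := Finset.card_le_card hsub
          rw [Finset.card_product] at h3
          have h4 := Finset.card_filter_add_card_filter_not
            (s := (Finset.univ : Finset ((Fin n → Bool) × (Fin n → Bool))))
            (fun r => (true && true && (!true || !true || (!(xor (r.1 i) (r.1 j)) &&
                !(xor (r.2 i) (r.2 j))))) = false)
          rw [Finset.card_univ] at h4
          rw [Fintype.card_prod, ← hc] at h4 ⊢
          nlinarith
        · rw [Bool.not_eq_true] at hy
          simp only [hy, Bool.and_false, Bool.false_and, Finset.filter_true, Finset.card_univ]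
          omega
      · rw [Bool.not_eq_true] at hx
        simp only [hx, Bool.false_and, Finset.filter_true, Finset.card_univ]
        omega

/-! ### The result -/

/-- Let `F(x, y) = f₁(x ∧ y)`, where `f₁(z) = 1` iff at most one coordinate of `z ∈ {0,1}ⁿ` is zero.
Then `D(F) ≥ log₂ n`, `R_{1/3}(F) ≤ 5` and `Q*_{1/3}(F) ≤ 7`. Hence for every function `g`, and in
particular for every polynomial, there are `n` and `f` with `D(F) > g(Q*_{1/3}(F))`, and even with
`D(F) > g(R_{1/3}(F))`. -/
theorem result :
    (∀ n : ℕ, n ≤ 2 ^ D (andF (f₁ n)) ∧ R (andF (f₁ n)) ≤ 5 ∧ Q (andF (f₁ n)) ≤ 7) ∧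
    (∀ P : Polynomial ℝ, ∃ n : ℕ, 1 ≤ n ∧ ∃ f : (Fin n → Bool) → Bool,
      P.eval (Q (andF f) : ℝ) < D (andF f)) ∧
    (∀ g : ℕ → ℝ, ∃ n : ℕ, 1 ≤ n ∧ ∃ f : (Fin n → Bool) → Bool,
      g (Q (andF f)) < D (andF f) ∧ g (R (andF f)) < D (andF f)) := by
  have h1 : ∀ n : ℕ, n ≤ 2 ^ D (andF (f₁ n)) ∧ R (andF (f₁ n)) ≤ 5 ∧ Q (andF (f₁ n)) ≤ 7 :=
    fun n => ⟨le_D n, R_le (W₁ n), Q_le (W₁ n)⟩
  have h2 : ∀ g : ℕ → ℝ, ∃ n : ℕ, 1 ≤ n ∧ ∃ f : (Fin n → Bool) → Bool,
      g (Q (andF f)) < D (andF f) ∧ g (R (andF f)) < D (andF f) := by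
    intro g
    obtain ⟨c, hc⟩ := exists_nat_gt (∑ k ∈ Finset.range 8, |g k|)
    have hg : ∀ k, k ≤ 7 → g k < c := by
      intro k hk
      have h3 : |g k| ≤ ∑ k ∈ Finset.range 8, |g k| :=
        Finset.single_le_sum (f := fun k => |g k|) (fun _ _ => abs_nonneg _)
          (Finset.mem_range.2 (by omega))
      exact lt_of_le_of_lt ((le_abs_self _).trans h3) hc
    obtain ⟨h3, h4, h5⟩ := h1 (2 ^ c)
    have h6 : c ≤ D (andF (f₁ (2 ^ c))) := (Nat.pow_le_pow_iff_right (by norm_num)).1 h3
    have h7 : (c : ℝ) ≤ D (andF (f₁ (2 ^ c))) := by exact_mod_cast h6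
    exact ⟨2 ^ c, Nat.one_le_two_pow, f₁ (2 ^ c), (hg _ h5).trans_le h7,
      (hg _ (h4.trans (by norm_num))).trans_le h7⟩
  refine ⟨h1, fun P => ?_, h2⟩
  obtain ⟨n, hn, f, hf, _⟩ := h2 (fun k => P.eval (k : ℝ))
  exact ⟨n, hn, f, hf⟩

end Pool.Agent.Results.MP_799357_lc.NoFunctionBound
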